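import Mathlib
import Pool.Agent.Helper5.NE.Stmts

/-! The killers: packet `PartBStmt`. -/

namespace Pool.Agent.Helper91.NE

open Pool.Agent.Helper5.NE
open scoped InnerProductSpace ComplexConjugate ENNReal Topology
open Filter

noncomputable section

/-! ### The rotation -/

/-- the number `1/√2` -/
def rr : ℂ := ((1 / √2 : ℝ) : ℂ)

theorem rr_sq : rr * rr = 1 / 2 := by
  unfold rr
  rw [← Complex.ofReal_mul]
  have : (1 / √2 : ℝ) * (1 / √2) = 1 / 2 := by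
    rw [div_mul_div_comm, Real.mul_self_sqrt (by norm_num)]
    norm_num
  rw [this]
  push_cast
  rfl

theorem rr_norm : ‖rr‖ ≤ 1 := by
  unfold rr
  rw [Complex.norm_real, Real.norm_of_nonneg (by positivity), div_le_one (by positivity)]
  exact Real.one_le_sqrt.2 (by norm_num)

theorem rr_conj : conj rr = rr := by
  unfold rr
  rw [Complex.conj_ofReal]

theorem c1_none (ρ : Rot) {u : X} (h : ρ.sg u.2 = none) : ρ.c1 u = 1 := by
  unfold Rot.c1; rw [h]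

theorem c1_false (ρ : Rot) {u : X} (h : ρ.sg u.2 = some false) : ρ.c1 u = rr := by
  unfold Rot.c1; rw [h]; rfl

theorem c1_true (ρ : Rot) {u : X} (h : ρ.sg u.2 = some true) : ρ.c1 u = -rr := by
  unfold Rot.c1; rw [h]; simp [rr]

theorem c2_none (ρ : Rot) {u : X} (h : ρ.sg u.2 = none) : ρ.c2 u = 0 := by
  unfold Rot.c2; rw [h]

theorem c2_some (ρ : Rot) {u : X} {b : Bool} (h : ρ.sg u.2 = some b) : ρ.c2 u = rr := by
  unfold Rot.c2; rw [h]; rfl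

theorem bd_c1 (ρ : Rot) : Bd ρ.c1 := by
  refine ⟨1, fun u => ?_⟩
  rcases h : ρ.sg u.2 with _ | _ | _
  · rw [c1_none ρ h, norm_one]
  · rw [c1_false ρ h]; exact rr_norm
  · rw [c1_true ρ h, norm_neg]; exact rr_norm

theorem bd_c2 (ρ : Rot) : Bd ρ.c2 := by
  refine ⟨1, fun u => ?_⟩
  rcases h : ρ.sg u.2 with _ | b
  · rw [c2_none ρ h, norm_zero]; exact zero_le_one
  · rw [c2_some ρ h]; exact rr_norm

theorem U_del (ρ : Rot) (u : X) : ρ.U (del u) = ρ.c1 u • del u + ρ.c2 u • del (ρ.kap u) := by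
  unfold Rot.U
  rw [add_apply, wp_del _ (bd_c1 ρ), wp_del _ (bd_c2 ρ)]
  rfl

theorem c2_kap (ρ : Rot) (u : X) : ρ.c2 (ρ.kap u) = ρ.c2 u := by
  rcases h : ρ.sg u.2 with _ | b
  · have : ρ.kap u = u := by unfold Rot.kap; rw [if_pos h]
    rw [this]
  · have h1 : (ρ.kap u).2 = ρ.P u.2 := by unfold Rot.kap; rw [if_neg (by rw [h]; simp)]
    have h2 : ρ.sg (ρ.kap u).2 = some (!b) := by rw [h1]; exact ρ.sg_P _ _ h
    rw [c2_some ρ h, c2_some ρ h2]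

theorem U_sq (ρ : Rot) : ρ.U * ρ.U = 1 := by
  refine ext_del (fun u => ?_)
  rw [mul_apply_eq_comp, U_del, map_add, map_smul, map_smul, U_del, U_del, ρ.kap_kap, c2_kap]
  rcases h : ρ.sg u.2 with _ | b
  · rw [c1_none ρ h, c2_none ρ h]
    simp
  · have h1 : (ρ.kap u).2 = ρ.P u.2 := by unfold Rot.kap; rw [if_neg (by rw [h]; simp)]
    have h2 : ρ.sg (ρ.kap u).2 = some (!b) := by rw [h1]; exact ρ.sg_P _ _ h
    rw [c2_some ρ h]
    have key : ∀ c d : ℂ, c * c = 1 / 2 → d = -c →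
        c • (c • (del u : L2 X) + rr • del (ρ.kap u)) + rr • (d • del (ρ.kap u) + rr • del u) =
          del u := by
      intro c d hc hd
      subst hd
      rw [smul_add, smul_add, smul_smul, smul_smul, smul_smul, smul_smul, hc, rr_sq]
      rw [mul_neg, neg_smul, mul_comm c rr]
      have : ((1 / 2 : ℂ) • (del u : L2 X)) + (rr * c) • del (ρ.kap u) +
          (-((rr * c) • del (ρ.kap u)) + (1 / 2 : ℂ) • del u) = (1 / 2 + 1 / 2 : ℂ) • del u := by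
        rw [add_smul]; abel
      rw [this]
      norm_num
    rcases b with _ | _
    · rw [c1_false ρ h, c1_true ρ h2]
      exact key rr (-rr) rr_sq rfl
    · rw [c1_true ρ h, c1_false ρ h2]
      exact key (-rr) rr (by rw [neg_mul_neg, rr_sq]) (by simp)

theorem U_star (ρ : Rot) : star ρ.U = ρ.U := by
  unfold Rot.U
  rw [star_add, wp_adjoint _ (bd_c1 ρ), wp_adjoint _ (bd_c2 ρ)]
  have h1 : (fun u => conj (ρ.c1 ((1 : Equiv.Perm X).symm u))) = ρ.c1 := by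
    funext u
    show conj (ρ.c1 u) = ρ.c1 u
    rcases h : ρ.sg u.2 with _ | _ | _
    · rw [c1_none ρ h]; simp
    · rw [c1_false ρ h, rr_conj]
    · rw [c1_true ρ h, map_neg, rr_conj]
  have h2 : (fun u => conj (ρ.c2 (ρ.kapE.symm u))) = ρ.c2 := by
    funext u
    have : ρ.kapE.symm u = ρ.kap u := rfl
    rw [this, c2_kap]
    rcases h : ρ.sg u.2 with _ | b
    · rw [c2_none ρ h]; simp
    · rw [c2_some ρ h, rr_conj]
  rw [h1, h2]
  rfl

theorem U_norm (ρ : Rot) : ‖ρ.U‖ ≤ 1 := by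
  have h : ‖ρ.U‖ * ‖ρ.U‖ ≤ 1 := by
    rw [← CStarRing.norm_star_mul_self, U_star, U_sq]
    exact ContinuousLinearMap.norm_id_le
  nlinarith [norm_nonneg ρ.U]

theorem U_U (ρ : Rot) (ξ : L2 X) : ρ.U (ρ.U ξ) = ξ := by
  have := congrArg (fun T : L2 X →L[ℂ] L2 X => T ξ) (U_sq ρ)
  simpa using this

theorem norm_U_del (ρ : Rot) (u : X) : ‖ρ.U (del u)‖ ≤ 1 := by
  refine (ρ.U.le_opNorm _).trans ?_
  rw [norm_del, mul_one]
  exact U_norm ρ

/-! ### The killers -/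

variable {A : Set ℕ} (bd : BD A)

theorem rot_sg (n : ℕ) (b : Bool) (p : Option (Fin bd.m) × Fin (bd.k n)) (x : RW) :
    bd.rot.sg ((x, bd.b ⟨n, b, p⟩) : X).2 = some b := by
  show (bd.dec (bd.b ⟨n, b, p⟩)).map _ = _
  rw [bd.dec_b]
  rfl

theorem rot_kap (n : ℕ) (b : Bool) (p : Option (Fin bd.m) × Fin (bd.k n)) (x : RW) :
    bd.rot.kap (x, bd.b ⟨n, b, p⟩) = (RW.Rs bd.s x, bd.b ⟨n, !b, p⟩) := by
  unfold Rot.kap
  rw [if_neg (by rw [rot_sg]; simp)]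
  show (RW.Rs bd.s x, bd.lift flipB (bd.b ⟨n, b, p⟩)) = _
  rw [bd.lift_b]
  rfl

theorem U_false (n : ℕ) (p : Option (Fin bd.m) × Fin (bd.k n)) (x : RW) :
    bd.rot.U (del (x, bd.b ⟨n, false, p⟩)) =
      rr • del (x, bd.b ⟨n, false, p⟩) + rr • del (RW.Rs bd.s x, bd.b ⟨n, true, p⟩) := by
  rw [U_del, rot_kap, c1_false _ (rot_sg bd n false p x), c2_some _ (rot_sg bd n false p x)]
  rfl

theorem U_true (n : ℕ) (p : Option (Fin bd.m) × Fin (bd.k n)) (x : RW) :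
    bd.rot.U (del (x, bd.b ⟨n, true, p⟩)) =
      -rr • del (x, bd.b ⟨n, true, p⟩) + rr • del (RW.Rs bd.s x, bd.b ⟨n, false, p⟩) := by
  rw [U_del, rot_kap, c1_true _ (rot_sg bd n true p x), c2_some _ (rot_sg bd n true p x)]
  rfl

theorem tau_nonneg (n l : ℕ) : 0 ≤ tau n l := le_max_left _ _

theorem tau_le (n l : ℕ) : tau n l ≤ 1 := by
  unfold tau
  refine max_le zero_le_one ?_
  have : (0 : ℝ) ≤ (l : ℝ) / ((n : ℝ) + 1) := by positivity
  linarith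

theorem tau_norm (n l : ℕ) : ‖((tau n l : ℝ) : ℂ)‖ ≤ 1 := by
  rw [Complex.norm_real, Real.norm_of_nonneg (tau_nonneg n l)]
  exact tau_le n l

theorem cX_norm (j : Fin bd.m) (u : X) : ‖bd.cX j u‖ ≤ 1 := by
  unfold BD.cX
  rcases bd.dec u.2 with _ | ⟨n, _ | _, _ | j', c⟩
  · simp
  · simp
  · simp
  · simp
  · simp only
    split_ifs
    · exact tau_norm _ _
    · simp

theorem cY_norm (j : Fin bd.m) (u : X) : ‖bd.cY j u‖ ≤ 1 := by
  unfold BD.cY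
  rcases bd.dec u.2 with _ | ⟨n, _ | _, _ | j', c⟩
  · simp
  · exact tau_norm _ _
  · simp
  · simp
  · simp

theorem X0_norm (j : Fin bd.m) : ‖bd.X0 j‖ ≤ 1 := wp_norm_le _ zero_le_one (cX_norm bd j)

theorem Y0_norm (j : Fin bd.m) : ‖bd.Y0 j‖ ≤ 1 := wp_norm_le _ zero_le_one (cY_norm bd j)

theorem XX_norm (j : Fin bd.m) : ‖bd.XX j‖ ≤ 1 := by
  unfold BD.XX
  refine (norm_mul_le _ _).trans ?_
  have h1 := (norm_mul_le bd.rot.U (bd.X0 j)).trans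
    (mul_le_one₀ (U_norm _) (norm_nonneg _) (X0_norm bd j))
  exact mul_le_one₀ h1 (norm_nonneg _) (U_norm _)

theorem YY_norm (j : Fin bd.m) : ‖bd.YY j‖ ≤ 1 := by
  unfold BD.YY
  refine (norm_mul_le _ _).trans ?_
  have h1 := (norm_mul_le bd.rot.U (bd.Y0 j)).trans
    (mul_le_one₀ (U_norm _) (norm_nonneg _) (Y0_norm bd j))
  exact mul_le_one₀ h1 (norm_nonneg _) (U_norm _)

theorem Y0_del (j : Fin bd.m) (n : ℕ) (a : Fin (bd.k n)) (x : RW) :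
    bd.Y0 j (del (x, bd.b ⟨n, false, (none, a)⟩)) =
      ((tau n x.len : ℝ) : ℂ) • del (x, bd.b ⟨n, false, (some j, a)⟩) := by
  unfold BD.Y0
  rw [wp_del _ ⟨1, cY_norm bd j⟩]
  have h1 : bd.colPerm (bd.swY j) (bd.swY_swY j) (x, bd.b ⟨n, false, (none, a)⟩) =
      (x, bd.b ⟨n, false, (some j, a)⟩) := by
    show (x, bd.lift (bd.swY j) (bd.b ⟨n, false, (none, a)⟩)) = _
    rw [bd.lift_b]
    rfl
  have h2 : bd.cY j (x, bd.b ⟨n, false, (none, a)⟩) = ((tau n x.len : ℝ) : ℂ) := by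
    unfold BD.cY
    simp only
    rw [bd.dec_b]
  rw [h1, h2]

theorem X0_star_del (j : Fin bd.m) (n : ℕ) (a : Fin (bd.k n)) (y : RW) :
    star (bd.X0 j) (del (y, bd.b ⟨n, true, (none, a)⟩)) =
      ((tau n y.len : ℝ) : ℂ) • del (y, bd.b ⟨n, true, (some j, (bd.w n j).symm a)⟩) := by
  unfold BD.X0
  rw [wp_adjoint _ ⟨1, cX_norm bd j⟩]
  rw [wp_del _ ⟨1, fun u => by
    rw [RCLike.norm_conj]
    exact cX_norm bd j _⟩]
  have h1 : (bd.colPerm (bd.swX j) (bd.swX_swX j)).symm (y, bd.b ⟨n, true, (none, a)⟩) =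
      (y, bd.b ⟨n, true, (some j, (bd.w n j).symm a)⟩) := by
    show (y, bd.lift (bd.swX j) (bd.b ⟨n, true, (none, a)⟩)) = _
    rw [bd.lift_b]
    rfl
  have h2 : bd.cX j (y, bd.b ⟨n, true, (some j, (bd.w n j).symm a)⟩) =
      ((tau n y.len : ℝ) : ℂ) := by
    unfold BD.cX
    simp only
    rw [bd.dec_b]
    simp
  rw [h1, h2, Complex.conj_ofReal]

/-- the vectors `P` -/
def vP (n : ℕ) (x : RW) (p : Option (Fin bd.m) × Fin (bd.k n)) : L2 X :=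
  bd.rot.U (del (x, bd.b ⟨n, false, p⟩))

/-- the vectors `Q` -/
def vQ (n : ℕ) (y : RW) (p : Option (Fin bd.m) × Fin (bd.k n)) : L2 X :=
  bd.rot.U (del (y, bd.b ⟨n, true, p⟩))

theorem YY_vP (j : Fin bd.m) (n : ℕ) (a : Fin (bd.k n)) (x : RW) :
    bd.YY j (vP bd n x (none, a)) = ((tau n x.len : ℝ) : ℂ) • vP bd n x (some j, a) := by
  unfold BD.YY vP
  rw [mul_apply_eq_comp, mul_apply_eq_comp, U_U, Y0_del, map_smul]

theorem XX_vQ (j : Fin bd.m) (n : ℕ) (a : Fin (bd.k n)) (y : RW) :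
    star (bd.XX j) (vQ bd n y (none, a)) =
      ((tau n y.len : ℝ) : ℂ) • vQ bd n y (some j, (bd.w n j).symm a) := by
  unfold BD.XX vQ
  rw [star_mul, star_mul, U_star, mul_apply_eq_comp, mul_apply_eq_comp, U_U,
    X0_star_del, map_smul]

theorem norm_vP (n : ℕ) (x : RW) (p : Option (Fin bd.m) × Fin (bd.k n)) : ‖vP bd n x p‖ ≤ 1 :=
  norm_U_del _ _

theorem norm_vQ (n : ℕ) (x : RW) (p : Option (Fin bd.m) × Fin (bd.k n)) : ‖vQ bd n x p‖ ≤ 1 :=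
  norm_U_del _ _

theorem Phi_QP {C : Type} [NonUnitalCStarAlgebra C]
    (Φ : C →ₗ[ℂ] L2 X →ₗ⋆[ℂ] L2 X →ₗ[ℂ] ℂ) (b : C) (n : ℕ)
    (p p' : Option (Fin bd.m) × Fin (bd.k n)) (x y : RW) :
    Φ b (vQ bd n y p') (vP bd n x p) = (1 / 2 : ℂ) *
      (Φ b (del (RW.Rs bd.s y, bd.b ⟨n, false, p'⟩)) (del (x, bd.b ⟨n, false, p⟩))
      + Φ b (del (RW.Rs bd.s y, bd.b ⟨n, false, p'⟩)) (del (RW.Rs bd.s x, bd.b ⟨n, true, p⟩))
      - Φ b (del (y, bd.b ⟨n, true, p'⟩)) (del (x, bd.b ⟨n, false, p⟩))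
      - Φ b (del (y, bd.b ⟨n, true, p'⟩)) (del (RW.Rs bd.s x, bd.b ⟨n, true, p⟩))) := by
  unfold vQ vP
  rw [U_true, U_false]
  simp only [map_add, LinearMap.map_smulₛₗ, LinearMap.add_apply, LinearMap.smul_apply,
    smul_eq_mul, map_neg, rr_conj, RingHom.id_apply]
  linear_combination
    (Φ b (del (RW.Rs bd.s y, bd.b ⟨n, false, p'⟩)) (del (x, bd.b ⟨n, false, p⟩))
      + Φ b (del (RW.Rs bd.s y, bd.b ⟨n, false, p'⟩)) (del (RW.Rs bd.s x, bd.b ⟨n, true, p⟩))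
      - Φ b (del (y, bd.b ⟨n, true, p'⟩)) (del (x, bd.b ⟨n, false, p⟩))
      - Φ b (del (y, bd.b ⟨n, true, p'⟩)) (del (RW.Rs bd.s x, bd.b ⟨n, true, p⟩))) * rr_sq

/-! ### The projection onto the sum zero vectors -/

theorem Pe_perm {k : ℕ} (w : Equiv.Perm (Fin k)) (a c : Fin k) : Pe (w a) (w c) = Pe a c := by
  unfold Pe
  simp [w.injective.eq_iff]

theorem Pe_norm {k : ℕ} (a c : Fin k) : ‖Pe a c‖ ≤ (if a = c then 1 else 0) + 1 / (k : ℝ) := by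
  unfold Pe
  refine (norm_sub_le _ _).trans (add_le_add (le_of_eq ?_) (le_of_eq ?_))
  · split_ifs <;> simp
  · simp

theorem Pe_norm_sum {k : ℕ} (hk : 0 < k) (c : Fin k) : ∑ a, ‖Pe a c‖ ≤ 2 := by
  refine (Finset.sum_le_sum (fun a _ => Pe_norm a c)).trans (le_of_eq ?_)
  rw [Finset.sum_add_distrib, Finset.sum_ite_eq' Finset.univ c, if_pos (Finset.mem_univ c),
    Finset.sum_const, Finset.card_univ, Fintype.card_fin, nsmul_eq_mul]
  have : (k : ℝ) ≠ 0 := by positivity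
  field_simp
  norm_num

theorem Pe_sq_sum {k : ℕ} (hk : 0 < k) (c : Fin k) :
    ∑ a, Pe a c * Pe a c = 1 - 1 / (k : ℂ) := by
  have hk' : (k : ℂ) ≠ 0 := by exact_mod_cast hk.ne'
  have h : ∀ a : Fin k, Pe a c * Pe a c = (if a = c then (1 - 2 / (k : ℂ)) else 0) +
      1 / (k : ℂ) ^ 2 := by
    intro a
    unfold Pe
    split_ifs
    · ring
    · ring
  rw [Finset.sum_congr rfl (fun a _ => h a), Finset.sum_add_distrib,
    Finset.sum_ite_eq' Finset.univ c, if_pos (Finset.mem_univ c),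
    Finset.sum_const, Finset.card_univ, Fintype.card_fin, nsmul_eq_mul]
  field_simp
  ring

theorem sum_bound {m k : ℕ} (hk : 0 < k) (w : Fin m → Equiv.Perm (Fin k))
    (H : Fin m → Fin k → Fin k → ℂ) (B : ℝ) (hB : 0 ≤ B) (hH : ∀ j a' a, ‖H j a' a‖ ≤ B) :
    ‖∑ j, ∑ c, ∑ a, ∑ a', Pe a c * Pe a' (w j c) * H j a' a‖ ≤ m * k * (4 * B) := by
  have h1 : ∀ (j : Fin m) (c : Fin k),
      ‖∑ a, ∑ a', Pe a c * Pe a' (w j c) * H j a' a‖ ≤ 4 * B := by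
    intro j c
    have e1 : ‖∑ a, ∑ a', Pe a c * Pe a' (w j c) * H j a' a‖ ≤
        ∑ a, ∑ a', ‖Pe a c‖ * ‖Pe a' (w j c)‖ * B := by
      refine norm_sum_le_of_le _ (fun a _ => norm_sum_le_of_le _ (fun a' _ => ?_))
      rw [norm_mul, norm_mul]
      exact mul_le_mul_of_nonneg_left (hH j a' a) (by positivity)
    refine e1.trans ?_
    have e2 : ∑ a, ∑ a', ‖Pe a c‖ * ‖Pe a' (w j c)‖ * B =
        (∑ a, ‖Pe a c‖) * (∑ a', ‖Pe a' (w j c)‖) * B := by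
      rw [Finset.sum_mul_sum, Finset.sum_mul]
      refine Finset.sum_congr rfl (fun a _ => ?_)
      rw [Finset.sum_mul]
    rw [e2]
    have e3 := Pe_norm_sum hk c
    have e4 := Pe_norm_sum hk (w j c)
    have e5 : 0 ≤ ∑ a, ‖Pe a c‖ := Finset.sum_nonneg (fun a _ => norm_nonneg _)
    have e6 : 0 ≤ ∑ a', ‖Pe a' (w j c)‖ := Finset.sum_nonneg (fun a _ => norm_nonneg _)
    have e7 : (∑ a, ‖Pe a c‖) * (∑ a', ‖Pe a' (w j c)‖) ≤ 2 * 2 := mul_le_mul e3 e4 e6 (by norm_num)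
    nlinarith
  refine (norm_sum_le_of_le _ (fun j _ => norm_sum_le_of_le _ (fun c _ => h1 j c))).trans
    (le_of_eq ?_)
  simp
  ring

theorem sum_main {m k : ℕ} (hk : 0 < k) (w : Fin m → Equiv.Perm (Fin k)) (z : ℂ) :
    ∑ j, ∑ c, ∑ a, ∑ a', Pe a c * Pe a' (w j c) * (if (w j).symm a' = a then z else 0) =
      m * ((k : ℂ) - 1) * z := by
  have hk' : (k : ℂ) ≠ 0 := by exact_mod_cast hk.ne'
  have h1 : ∀ (j : Fin m) (c : Fin k),
      ∑ a, ∑ a', Pe a c * Pe a' (w j c) * (if (w j).symm a' = a then z else 0) =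
        (1 - 1 / (k : ℂ)) * z := by
    intro j c
    rw [← Pe_sq_sum hk c, Finset.sum_mul]
    refine Finset.sum_congr rfl (fun a _ => ?_)
    rw [Finset.sum_eq_single (w j a)]
    · rw [Equiv.symm_apply_apply, if_pos rfl, Pe_perm]
    · intro a' _ h
      rw [if_neg (fun h2 => h (by rw [← h2, Equiv.apply_symm_apply]))]
      simp
    · intro h
      exact absurd (Finset.mem_univ _) h
  rw [Finset.sum_congr rfl (fun j _ => Finset.sum_congr rfl (fun c _ => h1 j c))]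
  simp
  field_simp

theorem sum_lower {m k : ℕ} (hm : 0 < m) (hk : 5 ≤ k) (w : Fin m → Equiv.Perm (Fin k)) (z : ℂ)
    (hz : z ≠ 0) (G : Fin m → Fin k → Fin k → ℂ)
    (hG : ∀ j a' a, ‖G j a' a - (if (w j).symm a' = a then z else 0)‖ ≤ ‖z‖ / 40) (t : ℝ)
    (ht : 3 / 4 ≤ t) :
    m * k * (‖z‖ / 4) < ‖∑ j, ∑ c, ∑ a, ∑ a', Pe a c * Pe a' (w j c) * ((t : ℂ) * G j a' a)‖ := by
  have hk0 : 0 < k := by omega
  have hz' : 0 < ‖z‖ := norm_pos_iff.2 hz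
  have hm' : (0 : ℝ) < m := by exact_mod_cast hm
  have hk' : (5 : ℝ) ≤ k := by exact_mod_cast hk
  have e1 : ∑ j, ∑ c, ∑ a, ∑ a', Pe a c * Pe a' (w j c) * ((t : ℂ) * G j a' a) =
      (t : ℂ) * (∑ j, ∑ c, ∑ a, ∑ a', Pe a c * Pe a' (w j c) *
        (if (w j).symm a' = a then z else 0)
      + ∑ j, ∑ c, ∑ a, ∑ a', Pe a c * Pe a' (w j c) *
        (G j a' a - (if (w j).symm a' = a then z else 0))) := by
    simp only [Finset.mul_sum, mul_add, ← Finset.sum_add_distrib]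
    refine Finset.sum_congr rfl fun j _ => Finset.sum_congr rfl fun c _ =>
      Finset.sum_congr rfl fun a _ => Finset.sum_congr rfl fun a' _ => ?_
    ring
  rw [e1, norm_mul, Complex.norm_real, Real.norm_of_nonneg (by linarith), sum_main hk0]
  have e2 := sum_bound hk0 w (fun j a' a => G j a' a - (if (w j).symm a' = a then z else 0))
    (‖z‖ / 40) (by positivity) hG
  have e3 : ‖(m : ℂ) * ((k : ℂ) - 1) * z‖ = m * ((k : ℝ) - 1) * ‖z‖ := by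
    rw [norm_mul, norm_mul, Complex.norm_natCast]
    congr 2
    have : ((k : ℂ) - 1) = (((k : ℝ) - 1 : ℝ) : ℂ) := by push_cast; rfl
    rw [this, Complex.norm_real, Real.norm_of_nonneg (by linarith)]
  have e4 := norm_sub_norm_le ((m : ℂ) * ((k : ℂ) - 1) * z)
    (-(∑ j, ∑ c, ∑ a, ∑ a', Pe a c * Pe a' (w j c) *
        (G j a' a - (if (w j).symm a' = a then z else 0))))
  rw [norm_neg, sub_neg_eq_add, e3] at e4
  have e5 : m * (7 / 10 * (k : ℝ)) * ‖z‖ ≤ ‖(m : ℂ) * ((k : ℂ) - 1) * z +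
      ∑ j, ∑ c, ∑ a, ∑ a', Pe a c * Pe a' (w j c) *
        (G j a' a - (if (w j).symm a' = a then z else 0))‖ := by
    refine le_trans ?_ e4
    have : (m : ℝ) * (7 / 10 * (k : ℝ)) * ‖z‖ ≤ m * ((k : ℝ) - 1) * ‖z‖ - m * k * (4 * (‖z‖ / 40)) := by
      have h : (m : ℝ) * ((k : ℝ) - 1) * ‖z‖ - m * k * (4 * (‖z‖ / 40)) -
          (m : ℝ) * (7 / 10 * (k : ℝ)) * ‖z‖ = m * ‖z‖ * (k / 5 - 1) := by ring
      have h2 : 0 ≤ (m : ℝ) * ‖z‖ * (k / 5 - 1) := by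
        refine mul_nonneg (by positivity) ?_
        linarith
      linarith
    linarith
  have e6 : 0 < (m : ℝ) * k * ‖z‖ := by positivity
  nlinarith [norm_nonneg ((m : ℂ) * ((k : ℂ) - 1) * z +
      ∑ j, ∑ c, ∑ a, ∑ a', Pe a c * Pe a' (w j c) *
        (G j a' a - (if (w j).symm a' = a then z else 0)))]

/-! ### Large `n` -/

theorem tau_tendsto (l : ℕ) : Tendsto (fun n => tau n l) atTop (𝓝 1) := by
  have h : Tendsto (fun n : ℕ => max 0 (1 - (l : ℝ) * (1 / ((n : ℝ) + 1)))) atTop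
      (𝓝 (max 0 (1 - (l : ℝ) * 0))) :=
    tendsto_const_nhds.max (tendsto_const_nhds.sub
      (tendsto_one_div_add_atTop_nhds_zero_nat.const_mul _))
  have h2 : (fun n : ℕ => tau n l) = fun n : ℕ => max 0 (1 - (l : ℝ) * (1 / ((n : ℝ) + 1))) := by
    funext n
    unfold tau
    rw [mul_one_div]
  rw [h2]
  simpa using h

theorem large (l l' : ℕ) : ∀ᶠ n in atTop, 3 / 4 ≤ tau n l * tau n l' := by
  have h := (tau_tendsto l).mul (tau_tendsto l')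
  rw [mul_one] at h
  exact (h.eventually (lt_mem_nhds (by norm_num : (3 / 4 : ℝ) < 1))).mono (fun n hn => hn.le)

theorem large2 (z : ℂ) (hz : z ≠ 0) : ∀ᶠ n : ℕ in atTop, 2 / ((n : ℝ) + 1) ≤ ‖z‖ / 40 := by
  have h : Tendsto (fun n : ℕ => 2 * (1 / ((n : ℝ) + 1))) atTop (𝓝 (2 * 0)) :=
    tendsto_one_div_add_atTop_nhds_zero_nat.const_mul _
  rw [mul_zero] at h
  have hz' : 0 < ‖z‖ := norm_pos_iff.2 hz
  refine (h.eventually (gt_mem_nhds (by positivity : (0 : ℝ) < ‖z‖ / 40))).mono (fun n hn => ?_)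
  rw [← mul_one_div]
  exact hn.le

/-! ### The functional -/

/-- the matrix of a form on a family of vectors -/
def SS {C D : Type} [NonUnitalCStarAlgebra C] [CStarAlgebra D]
    (Φ : C →ₗ[ℂ] L2 X →ₗ⋆[ℂ] L2 X →ₗ[ℂ] ℂ) (ψ : D →ₗ[ℂ] C) {I : Type} (ξ : I → L2 X) :
    D →ₗ[ℂ] Matrix I I ℂ where
  toFun a := Matrix.of fun c c' => Φ (ψ a) (ξ c) (ξ c')
  map_add' a a' := by
    ext c c'
    simp
  map_smul' r a := by
    ext c c'
    simp

theorem SS_apply {C D : Type} [NonUnitalCStarAlgebra C] [CStarAlgebra D]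
    (Φ : C →ₗ[ℂ] L2 X →ₗ⋆[ℂ] L2 X →ₗ[ℂ] ℂ) (ψ : D →ₗ[ℂ] C) {I : Type} (ξ : I → L2 X) (a : D)
    (c c' : I) : SS Φ ψ ξ a c c' = Φ (ψ a) (ξ c) (ξ c') := rfl

theorem norm_one_le (D : Type) [CStarAlgebra D] : ‖(1 : D)‖ ≤ 1 := by
  have h : ‖(1 : D)‖ * ‖(1 : D)‖ = ‖(1 : D)‖ := by
    rw [← CStarRing.norm_star_mul_self, star_one, one_mul]
  by_contra h2
  rw [not_le] at h2
  nlinarith

theorem Pe_diff {C : Type} [NonUnitalCStarAlgebra C]
    {Al : StarSubalgebra ℂ (L2 X →L[ℂ] L2 X)} {ι : Al →⋆ₙₐ[ℂ] C}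
    {Φ : C →ₗ[ℂ] L2 X →ₗ⋆[ℂ] L2 X →ₗ[ℂ] ℂ} (hΦ : IsForm ι Φ) {c c' : C} {ε : ℝ}
    (h : ‖c - c'‖ ≤ ε) {η ξ : L2 X} (hη : ‖η‖ ≤ 1) (hξ : ‖ξ‖ ≤ 1) :
    ‖Φ c' η ξ - Φ c η ξ‖ ≤ ε := by
  have h1 := hΦ.bound (c - c') η ξ
  rw [map_sub, LinearMap.sub_apply, LinearMap.sub_apply] at h1
  rw [norm_sub_rev]
  have h2 : ‖c - c'‖ * ‖η‖ * ‖ξ‖ ≤ ‖c - c'‖ * 1 * 1 := by gcongr
  linarith

/-- P12 -/
theorem partB : PartBStmt := by
  intro A bd T z x0 y0 hK Al hX hY C _ ι Φ hΦ hC b hb hT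
  let d : Fin bd.m → C := fun j => ι ⟨bd.XX j, hX j⟩ * b * ι ⟨bd.YY j, hY j⟩
  have hd : ∀ j, ‖d j‖ ≤ 1 := by
    intro j
    have h1 : ‖ι ⟨bd.XX j, hX j⟩‖ ≤ 1 := (hΦ.nle _).trans (XX_norm bd j)
    have h2 : ‖ι ⟨bd.YY j, hY j⟩‖ ≤ 1 := (hΦ.nle _).trans (YY_norm bd j)
    refine (norm_mul_le _ _).trans (mul_le_one₀ ?_ (norm_nonneg _) h2)
    exact (norm_mul_le _ _).trans (mul_le_one₀ h1 (norm_nonneg _) hb)
  have hz' : 0 < ‖z‖ := norm_pos_iff.2 hK.hz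
  classical
  obtain ⟨D, iD, fD, φ, ψ, hφ, hψ, happ⟩ := hC (Finset.univ.image d) (‖z‖ / 32) (by positivity)
  have happ' : ∀ j, ‖ψ (φ (d j)) - d j‖ ≤ ‖z‖ / 32 := fun j =>
    (happ (d j) (Finset.mem_image_of_mem d (Finset.mem_univ j))).le
  obtain ⟨n, hn1, hn2, hn3⟩ := ((hK.hQ D).and ((large x0.len y0.len).and
    (large2 z hK.hz))).exists
  have hk5 := hK.hk n
  have hk0 : 0 < bd.k n := by omega
  let ξ : Fin (bd.k n) ⊕ Fin (bd.k n) → L2 X := fun c => match c with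
    | Sum.inl a => vP bd n x0 (none, a)
    | Sum.inr a => vQ bd n y0 (none, a)
  have hξ : ∀ c, ‖ξ c‖ ≤ 1 := by
    rintro (a | a)
    · exact norm_vP bd n x0 _
    · exact norm_vQ bd n y0 _
  have key := hn1 (fun j => φ (d j)) (fun j => (hφ.1 _).trans (hd j)) (SS Φ ψ ξ) (by
      intro y
      obtain ⟨z', hz'⟩ := hψ.gen (Fin (bd.k n) ⊕ Fin (bd.k n)) y
      have h1 := hΦ.pos _ z' ξ
      have h2 : ∀ c c', SS Φ ψ ξ ((star y * y) c c') c c' = Φ ((star z' * z') c c') (ξ c) (ξ c') := by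
        intro c c'
        rw [SS_apply, ← hz']
        rfl
      simp only [h2]
      exact h1) (by
      intro c
      rw [SS_apply]
      refine (hΦ.bound _ _ _).trans ?_
      have h1 : ‖ψ 1‖ ≤ 1 := (hψ.1 1).trans (norm_one_le D)
      exact mul_le_one₀ (mul_le_one₀ h1 (norm_nonneg _) (hξ c)) (norm_nonneg _) (hξ c))
  -- the exact value
  have hval : ∀ (j : Fin bd.m) (a' a : Fin (bd.k n)),
      Φ (d j) (ξ (Sum.inr a')) (ξ (Sum.inl a)) = ((tau n x0.len * tau n y0.len : ℝ) : ℂ) *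
        Φ b (vQ bd n y0 (some j, (bd.w n j).symm a')) (vP bd n x0 (some j, a)) := by
    intro j a' a
    show Φ (ι ⟨bd.XX j, hX j⟩ * b * ι ⟨bd.YY j, hY j⟩) (vQ bd n y0 (none, a'))
      (vP bd n x0 (none, a)) = _
    rw [hΦ.mul]
    show Φ b (star (bd.XX j) (vQ bd n y0 (none, a'))) (bd.YY j (vP bd n x0 (none, a))) = _
    rw [XX_vQ, YY_vP]
    simp only [LinearMap.map_smulₛₗ, LinearMap.smul_apply, RingHom.id_apply, smul_eq_mul,
      Complex.conj_ofReal]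
    push_cast
    ring
  have hG : ∀ (j : Fin bd.m) (a' a : Fin (bd.k n)),
      ‖Φ b (vQ bd n y0 (some j, (bd.w n j).symm a')) (vP bd n x0 (some j, a)) -
        (if (bd.w n j).symm a' = a then z else 0)‖ ≤ ‖z‖ / 40 := by
    intro j a' a
    refine le_trans ?_ hn3
    have h1 := hK.hT n (some j, a) (some j, (bd.w n j).symm a')
    rw [Phi_QP]
    simp only [hT] at h1
    have h2 : (if ((some j, (bd.w n j).symm a') : Option (Fin bd.m) × Fin (bd.k n)) = (some j, a)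
        then z else 0) = (if (bd.w n j).symm a' = a then z else 0) := by
      by_cases h : (bd.w n j).symm a' = a
      · rw [if_pos h, if_pos (by rw [h])]
      · rw [if_neg h, if_neg (fun h2 => h (Prod.mk.inj h2).2)]
    rw [h2] at h1
    exact h1
  have low := sum_lower hK.hm hk5 (bd.w n) z hK.hz _ hG _ hn2
  -- the upper bound
  have hdiff : ∀ (j : Fin bd.m) (a' a : Fin (bd.k n)),
      ‖Φ (d j) (ξ (Sum.inr a')) (ξ (Sum.inl a)) -
        SS Φ ψ ξ (φ (d j)) (Sum.inr a') (Sum.inl a)‖ ≤ ‖z‖ / 32 := by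
    intro j a' a
    rw [SS_apply]
    exact Pe_diff hΦ (happ' j) (hξ (Sum.inr a')) (hξ (Sum.inl a))
  have up := sum_bound hk0 (bd.w n) (fun j a' a => Φ (d j) (ξ (Sum.inr a')) (ξ (Sum.inl a)) -
        SS Φ ψ ξ (φ (d j)) (Sum.inr a') (Sum.inl a)) (‖z‖ / 32) (by positivity) hdiff
  have hsplit : ∑ j, ∑ c, ∑ a, ∑ a', Pe a c * Pe a' (bd.w n j c) *
        Φ (d j) (ξ (Sum.inr a')) (ξ (Sum.inl a)) =
      (∑ j, ∑ c, ∑ a, ∑ a', Pe a c * Pe a' (bd.w n j c) *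
        SS Φ ψ ξ (φ (d j)) (Sum.inr a') (Sum.inl a)) +
      ∑ j, ∑ c, ∑ a, ∑ a', Pe a c * Pe a' (bd.w n j c) *
        (Φ (d j) (ξ (Sum.inr a')) (ξ (Sum.inl a)) -
        SS Φ ψ ξ (φ (d j)) (Sum.inr a') (Sum.inl a)) := by
    simp only [← Finset.sum_add_distrib]
    refine Finset.sum_congr rfl fun j _ => Finset.sum_congr rfl fun c _ =>
      Finset.sum_congr rfl fun a _ => Finset.sum_congr rfl fun a' _ => ?_
    ring
  simp only [← hval] at low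
  rw [hsplit] at low
  have h3 := low.trans_le ((norm_add_le _ _).trans (add_le_add key up))
  have : 2 * (bd.k n : ℝ) * (‖z‖ / 16) * bd.m + bd.m * bd.k n * (4 * (‖z‖ / 32)) =
      bd.m * bd.k n * (‖z‖ / 4) := by ring
  linarith

end

end Pool.Agent.Helper91.NE
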